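import Pool.Agent.Run7.h163.IM.Iface

/-!
# Project of helper163 (MP_3bbc5b_al), piece LAG (the Laguerre case)
-/

set_option autoImplicit false

namespace Run7.h277.IM.LAG

open Filter Topology Finset Polynomial
open Run7.h163.IM
open scoped Nat

/-- the rising factorials -/
noncomputable def P (α : ℝ) (k : ℕ) : ℂ := ∏ i ∈ range k, ((α : ℂ) + 1 + (i : ℂ))

/-- the quotients `P N / P (N - i)` -/
noncomputable def Q (α : ℝ) (N i : ℕ) : ℂ := ∏ l ∈ range i, ((α : ℂ) + N - l)

lemma P_eq (α : ℝ) (N : ℕ) : ∀ i : ℕ, i ≤ N → P α N = P α (N - i) * Q α N i := by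
  intro i
  induction i with
  | zero => intro _; simp [Q]
  | succ i ih =>
    intro hi
    rw [ih (by omega)]
    unfold Q
    rw [prod_range_succ]
    have e : N - i = N - (i + 1) + 1 := by omega
    have e2 : P α (N - i) = P α (N - (i + 1)) * ((α : ℂ) + N - i) := by
      rw [e]
      unfold P
      rw [prod_range_succ]
      congr 1
      have e3 : ((N - (i + 1) : ℕ) : ℂ) = (N : ℂ) - ((i : ℂ) + 1) := by
        rw [Nat.cast_sub hi]; push_cast; ring
      rw [e3]; ring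
    rw [e2]
    ring

lemma P_ne (α : ℝ) (hα : -1 < α) (k : ℕ) : P α k ≠ 0 := by
  unfold P
  rw [prod_ne_zero_iff]
  intro i _ h
  have h2 := congrArg Complex.re h
  simp at h2
  have : (0 : ℝ) ≤ i := Nat.cast_nonneg i
  linarith

/-- domination of the coefficients of the powers -/
lemma coef_bound (g : ℂ[X]) (D : ℝ) (hD : 0 ≤ D) (hg : ∀ j, ‖g.coeff j‖ ≤ D ^ j / j !) :
    ∀ m i : ℕ, ‖(g ^ m).coeff i‖ ≤ (D * m) ^ i / i ! := by
  intro m
  induction m with
  | zero =>
    intro i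
    rw [pow_zero, coeff_one]
    rcases Nat.eq_zero_or_pos i with h | h
    · rw [h]; simp
    · rw [if_neg (by omega), norm_zero]
      positivity
  | succ m ih =>
    intro i
    rw [pow_succ, coeff_mul]
    refine (norm_sum_le _ _).trans ?_
    have h1 : ∀ x ∈ antidiagonal i, ‖(g ^ m).coeff x.1 * g.coeff x.2‖ ≤
        ((D * m) ^ x.1 / x.1 !) * (D ^ x.2 / x.2 !) := by
      intro x _
      rw [norm_mul]
      exact mul_le_mul (ih _) (hg _) (norm_nonneg _) (by positivity)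
    refine (sum_le_sum h1).trans (le_of_eq ?_)
    have e1 : D * ((m + 1 : ℕ) : ℝ) = D * m + D := by push_cast; ring
    rw [e1, (Commute.all (D * (m : ℝ)) D).add_pow', sum_div]
    refine sum_congr rfl fun x hx => ?_
    rw [Finset.HasAntidiagonal.mem_antidiagonal] at hx
    have h2 := Nat.choose_mul_factorial_mul_factorial (show x.1 ≤ i by omega)
    rw [show i - x.1 = x.2 by omega] at h2
    have h3 : ((i.choose x.1 : ℕ) : ℝ) * (x.1 ! : ℕ) * (x.2 ! : ℕ) = (i ! : ℕ) := by exact_mod_cast h2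
    have h4 : ((x.1 ! : ℕ) : ℝ) ≠ 0 := by exact_mod_cast Nat.factorial_ne_zero _
    have h5 : ((x.2 ! : ℕ) : ℝ) ≠ 0 := by exact_mod_cast Nat.factorial_ne_zero _
    have h6 : ((i ! : ℕ) : ℝ) ≠ 0 := by exact_mod_cast Nat.factorial_ne_zero _
    rw [nsmul_eq_mul, ← h3]
    have h7 : ((i.choose x.1 : ℕ) : ℝ) ≠ 0 := by
      intro h
      rw [h] at h3
      simp at h3
      exact h6 h3.symm
    field_simp

/-- `∏_(l<i) (i - l) = i!` -/
lemma prod_self (i : ℕ) : ∏ l ∈ range i, ((i : ℝ) - l) = (i ! : ℕ) := by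
  induction i with
  | zero => simp
  | succ i ih =>
    rw [prod_range_succ', Nat.factorial_succ]
    push_cast
    have : ∏ l ∈ range i, ((i : ℝ) + 1 - (l + 1)) = ∏ l ∈ range i, ((i : ℝ) - l) :=
      prod_congr rfl fun l _ => by ring
    rw [this, ih]
    ring

lemma desc_bound (N i : ℕ) (hi : i ≤ N) : (N : ℝ) ^ i ≤ Real.exp 1 ^ i * ∏ l ∈ range i, ((N : ℝ) - l) := by
  have h1 : (N : ℝ) ^ i * (i ! : ℕ) ≤ (i : ℝ) ^ i * ∏ l ∈ range i, ((N : ℝ) - l) := by
    rw [← prod_self]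
    have e1 : (N : ℝ) ^ i = ∏ _l ∈ range i, (N : ℝ) := by rw [prod_const, card_range]
    have e2 : (i : ℝ) ^ i = ∏ _l ∈ range i, (i : ℝ) := by rw [prod_const, card_range]
    rw [e1, e2, ← prod_mul_distrib, ← prod_mul_distrib]
    refine prod_le_prod (fun l hl => ?_) fun l hl => ?_
    · rw [mem_range] at hl
      have : (l : ℝ) ≤ i := by exact_mod_cast hl.le
      have hN : (0 : ℝ) ≤ N := Nat.cast_nonneg N
      nlinarith
    · have h2 : (i : ℝ) ≤ N := by exact_mod_cast hi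
      have h3 : (0 : ℝ) ≤ l := Nat.cast_nonneg l
      nlinarith
  have h2 : (i : ℝ) ^ i ≤ Real.exp 1 ^ i * (i ! : ℕ) := by
    have h3 := Real.pow_div_factorial_le_exp (i : ℝ) (Nat.cast_nonneg i) i
    have h4 : (0 : ℝ) < (i ! : ℕ) := by exact_mod_cast Nat.factorial_pos i
    rw [div_le_iff₀ h4] at h3
    rw [← Real.exp_nat_mul, mul_one]
    exact h3
  have h3 : 0 ≤ ∏ l ∈ range i, ((N : ℝ) - l) := by
    refine prod_nonneg fun l hl => ?_
    rw [mem_range] at hl
    have : (l : ℝ) ≤ N := by exact_mod_cast (by omega : l ≤ N)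
    linarith
  have h4 : (0 : ℝ) < (i ! : ℕ) := by exact_mod_cast Nat.factorial_pos i
  refine le_of_mul_le_mul_right ?_ h4
  calc (N : ℝ) ^ i * (i ! : ℕ) ≤ (i : ℝ) ^ i * ∏ l ∈ range i, ((N : ℝ) - l) := h1
    _ ≤ (Real.exp 1 ^ i * (i ! : ℕ)) * ∏ l ∈ range i, ((N : ℝ) - l) := mul_le_mul_of_nonneg_right h2 h3
    _ = _ := by ring

lemma Q_bound (α c : ℝ) (hc : 0 < c) (hc1 : c ≤ 1) (hc2 : c ≤ α + 1) (N i : ℕ) (hi : i ≤ N) :
    (c * (N : ℝ) / Real.exp 1) ^ i ≤ ‖Q α N i‖ := by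
  have h1 := desc_bound N i hi
  have h2 : ‖Q α N i‖ = ∏ l ∈ range i, |α + N - l| := by
    unfold Q
    rw [norm_prod]
    refine prod_congr rfl fun l _ => ?_
    have : (α : ℂ) + N - l = ((α + N - l : ℝ) : ℂ) := by push_cast; ring
    rw [this, Complex.norm_real, Real.norm_eq_abs]
  rw [h2]
  have h3 : c ^ i * ∏ l ∈ range i, ((N : ℝ) - l) ≤ ∏ l ∈ range i, |α + N - l| := by
    have e1 : c ^ i = ∏ _l ∈ range i, c := by rw [prod_const, card_range]
    rw [e1, ← prod_mul_distrib]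
    refine prod_le_prod (fun l hl => ?_) fun l hl => ?_
    · rw [mem_range] at hl
      have : (l : ℝ) ≤ N := by exact_mod_cast (by omega : l ≤ N)
      apply mul_nonneg hc.le
      linarith
    · rw [mem_range] at hl
      have h4 : (l : ℝ) + 1 ≤ N := by exact_mod_cast (by omega : l + 1 ≤ N)
      refine le_trans ?_ (le_abs_self _)
      nlinarith
  refine le_trans ?_ h3
  rw [div_pow, mul_pow, div_le_iff₀ (by positivity)]
  calc c ^ i * (N : ℝ) ^ i ≤ c ^ i * (Real.exp 1 ^ i * ∏ l ∈ range i, ((N : ℝ) - l)) :=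
        mul_le_mul_of_nonneg_left h1 (by positivity)
    _ = _ := by ring

/-- the expansion of `(1 + h)^m` -/
lemma coeff_one_add (h : ℂ[X]) (h0 : h.coeff 0 = 0) (m i : ℕ) :
    ((1 + h) ^ m).coeff i = ∑ k ∈ range (i + 1), (m.choose k : ℂ) * (h ^ k).coeff i := by
  have hX : X ∣ h := X_dvd_iff.2 h0
  have h1 : ((1 + h) ^ m).coeff i = ∑ k ∈ range (m + 1), (m.choose k : ℂ) * (h ^ k).coeff i := by
    rw [add_comm, add_pow, finsetSum_coeff]
    refine sum_congr rfl fun k _ => ?_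
    rw [one_pow, mul_one, mul_comm, ← C_eq_natCast, coeff_C_mul]
  rw [h1]
  have h2 : ∀ k, k ∉ range (m + 1) → (m.choose k : ℂ) * (h ^ k).coeff i = 0 := by
    intro k hk
    rw [mem_range, not_lt] at hk
    rw [Nat.choose_eq_zero_of_lt (by omega)]
    simp
  have h3 : ∀ k, k ∉ range (i + 1) → (m.choose k : ℂ) * (h ^ k).coeff i = 0 := by
    intro k hk
    rw [mem_range, not_lt] at hk
    have h4 : X ^ k ∣ h ^ k := pow_dvd_pow_of_dvd hX k
    rw [X_pow_dvd_iff.1 h4 i (by omega), mul_zero]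
  calc ∑ k ∈ range (m + 1), (m.choose k : ℂ) * (h ^ k).coeff i
      = ∑ k ∈ range (m + 1) ∪ range (i + 1), (m.choose k : ℂ) * (h ^ k).coeff i :=
        sum_subset subset_union_left fun k _ hk => h2 k hk
    _ = _ := (sum_subset subset_union_right fun k _ hk => h3 k hk).symm

lemma coeff_pow_self (h : ℂ[X]) (h0 : h.coeff 0 = 0) (i : ℕ) : (h ^ i).coeff i = h.coeff 1 ^ i := by
  obtain ⟨q, hq⟩ := X_dvd_iff.2 h0
  rw [hq, mul_pow]
  have e1 : (X ^ i * q ^ i : ℂ[X]).coeff i = (q ^ i).coeff 0 := by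
    have := coeff_X_pow_mul (q ^ i) i 0
    simpa using this
  have e2 : (X * q : ℂ[X]).coeff 1 = q.coeff 0 := by
    have := coeff_X_mul q 0
    simpa using this
  rw [e1, e2, coeff_zero_eq_eval_zero, coeff_zero_eq_eval_zero, eval_pow]

lemma choose_lim (k : ℕ) : Tendsto (fun m : ℕ => (m.choose k : ℂ) / (m : ℂ) ^ k) atTop (𝓝 (1 / (k ! : ℕ))) := by
  have h1 := isEquivalent_choose k
  have hz : ∀ᶠ m : ℕ in atTop, ((m : ℝ) ^ k / k.factorial : ℝ) ≠ 0 := by
    filter_upwards [eventually_ge_atTop 1] with m hm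
    have : (0 : ℝ) < m := by exact_mod_cast hm
    positivity
  rw [Asymptotics.isEquivalent_iff_tendsto_one hz] at h1
  have h2 : Tendsto (fun m : ℕ => ((m.choose k : ℝ) / (m : ℝ) ^ k)) atTop (𝓝 (1 / (k ! : ℕ))) := by
    have h3 := h1.mul_const (1 / ((k ! : ℕ) : ℝ))
    rw [one_mul] at h3
    refine h3.congr' ?_
    filter_upwards [eventually_ge_atTop 1] with m hm
    have : (0 : ℝ) < m := by exact_mod_cast hm
    simp only [Pi.div_apply]
    field_simp
  have h4 := (Complex.continuous_ofReal.tendsto _).comp h2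
  refine (h4.congr fun m => ?_).trans (le_of_eq ?_)
  · simp
  · simp

lemma choose_lim' (k i : ℕ) (hk : k ≤ i) : Tendsto (fun m : ℕ => (m.choose k : ℂ) / (m : ℂ) ^ i) atTop
    (𝓝 (if k = i then 1 / (i ! : ℕ) else 0)) := by
  rcases hk.eq_or_lt with h | h
  · rw [if_pos h, h]; exact choose_lim i
  · rw [if_neg h.ne]
    have h1 := choose_lim k
    have h2 : Tendsto (fun m : ℕ => ((1 : ℂ) / m) ^ (i - k)) atTop (𝓝 0) := by
      have h3 : Tendsto (fun m : ℕ => (1 : ℂ) / m) atTop (𝓝 0) := tendsto_one_div_atTop_nhds_zero_nat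
      have h4 := h3.pow (i - k)
      rwa [zero_pow (by omega)] at h4
    have h3 := h1.mul h2
    rw [mul_zero] at h3
    refine h3.congr' ?_
    filter_upwards [eventually_ge_atTop 1] with m hm
    have : (m : ℂ) ≠ 0 := by exact_mod_cast (by omega : m ≠ 0)
    have e : (m : ℂ) ^ i = (m : ℂ) ^ k * (m : ℂ) ^ (i - k) := by rw [← pow_add]; congr 1; omega
    have h5 : (m : ℂ) ^ (i - k) ≠ 0 := pow_ne_zero _ this
    have h6 : (m : ℂ) ^ k ≠ 0 := pow_ne_zero _ this
    rw [e, one_div, inv_pow, div_mul_eq_mul_div, div_eq_div_iff h6 (mul_ne_zero h6 h5)]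
    field_simp

lemma Q_lim (α : ℝ) (n : ℕ) (i : ℕ) : Tendsto (fun m : ℕ => Q α (n * m) i / (m : ℂ) ^ i) atTop (𝓝 ((n : ℂ) ^ i)) := by
  have h1 : ∀ l : ℕ, Tendsto (fun m : ℕ => ((α : ℂ) + (n * m : ℕ) - l) / m) atTop (𝓝 (n : ℂ)) := by
    intro l
    have h3 : Tendsto (fun m : ℕ => (1 : ℂ) / m) atTop (𝓝 0) := tendsto_one_div_atTop_nhds_zero_nat
    have h4 := (h3.const_mul ((α : ℂ) - l)).add_const (n : ℂ)
    rw [mul_zero, zero_add] at h4
    refine h4.congr' ?_
    filter_upwards [eventually_ge_atTop 1] with m hm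
    have : (m : ℂ) ≠ 0 := by exact_mod_cast (by omega : m ≠ 0)
    push_cast
    field_simp
    ring
  have h2 := tendsto_finsetProd (range i) fun l _ => h1 l
  rw [prod_const, card_range] at h2
  refine h2.congr fun m => ?_
  unfold Q
  rw [prod_div_distrib, prod_const, card_range]

/-- the limit of the terms -/
lemma term_lim (α : ℝ) (n : ℕ) (hn : 1 ≤ n) (h : ℂ[X]) (h0 : h.coeff 0 = 0) (i : ℕ) :
    Tendsto (fun m : ℕ => ((1 + h) ^ m).coeff i / Q α (n * m) i) atTop (𝓝 ((h.coeff 1 / n) ^ i / (i ! : ℕ))) := by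
  have h1 : Tendsto (fun m : ℕ => ((1 + h) ^ m).coeff i / (m : ℂ) ^ i) atTop (𝓝 (h.coeff 1 ^ i / (i ! : ℕ))) := by
    have h2 : Tendsto (fun m : ℕ => ∑ k ∈ range (i + 1), (m.choose k : ℂ) / (m : ℂ) ^ i * (h ^ k).coeff i) atTop
        (𝓝 (∑ k ∈ range (i + 1), (if k = i then 1 / ((i ! : ℕ) : ℂ) else 0) * (h ^ k).coeff i)) := by
      refine tendsto_finsetSum _ fun k hk => ?_
      rw [mem_range] at hk
      exact (choose_lim' k i (by omega)).mul_const _
    have e : ∑ k ∈ range (i + 1), (if k = i then 1 / ((i ! : ℕ) : ℂ) else 0) * (h ^ k).coeff i =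
        h.coeff 1 ^ i / (i ! : ℕ) := by
      rw [sum_eq_single i]
      · rw [if_pos rfl, coeff_pow_self h h0]; ring
      · intro k _ hk; rw [if_neg hk, zero_mul]
      · intro hk; exact absurd (mem_range.2 (by omega)) hk
    rw [e] at h2
    refine h2.congr fun m => ?_
    rw [coeff_one_add h h0, sum_div]
    exact sum_congr rfl fun k _ => by ring
  have h2 := Q_lim α n i
  have hn0 : (n : ℂ) ^ i ≠ 0 := pow_ne_zero _ (by exact_mod_cast (by omega : n ≠ 0))
  have h3 := h1.div h2 hn0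
  have e : h.coeff 1 ^ i / (i ! : ℕ) / (n : ℂ) ^ i = (h.coeff 1 / n) ^ i / (i ! : ℕ) := by
    rw [div_pow]; ring
  rw [e] at h3
  refine h3.congr' ?_
  filter_upwards [eventually_ge_atTop 1] with m hm
  have : (m : ℂ) ≠ 0 := by exact_mod_cast (by omega : m ≠ 0)
  have h5 : (m : ℂ) ^ i ≠ 0 := pow_ne_zero _ this
  simp only [Pi.div_apply]
  rw [div_div_div_cancel_right₀ h5]

/-- the moment of a power -/
lemma lag_pow (α : ℝ) (hα : -1 < α) (f : ℂ[X]) (_hf : f ≠ 0) (h : ℂ[X])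
    (hh : C (f.leadingCoeff) * (1 + h) = f.reverse) (m : ℕ) :
    lag α (f ^ m) = f.leadingCoeff ^ m * P α (f.natDegree * m) *
      ∑ i ∈ range (f.natDegree * m + 1), ((1 + h) ^ m).coeff i / Q α (f.natDegree * m) i := by
  have hrev : ∀ m : ℕ, (f ^ m).reverse = f.reverse ^ m := by
    intro m
    induction m with
    | zero =>
      rw [pow_zero, pow_zero, ← C_1]
      exact reverse_C _
    | succ m ih => rw [pow_succ, pow_succ, reverse_mul_of_domain, ih]
  have hN : (f ^ m).natDegree = f.natDegree * m := by rw [natDegree_pow, mul_comm]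
  unfold lag
  rw [sum_over_range _ (by intro n; simp), hN, ← Finset.sum_flip, mul_sum]
  refine sum_congr rfl fun i hi => ?_
  rw [mem_range] at hi
  have hi' : i ≤ f.natDegree * m := by omega
  have e1 : (f ^ m).coeff (f.natDegree * m - i) = f.leadingCoeff ^ m * ((1 + h) ^ m).coeff i := by
    have e2 : (f ^ m).reverse.coeff i = (f ^ m).coeff (f.natDegree * m - i) := by
      rw [coeff_reverse, hN, revAt_le hi']
    rw [← e2, hrev, ← hh, mul_pow, ← C_pow, coeff_C_mul]
  have e3 := P_eq α (f.natDegree * m) i hi'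
  have hQ : Q α (f.natDegree * m) i ≠ 0 := by
    intro h0
    rw [h0, mul_zero] at e3
    exact P_ne α hα _ e3
  have e4 : ∏ i ∈ range (f.natDegree * m - i), ((α : ℂ) + 1 + (i : ℂ)) = P α (f.natDegree * m - i) := rfl
  rw [e1, e4, e3]
  field_simp

theorem main : S_LAG := by
  intro α hα f hf
  by_contra hne
  rcases Nat.eq_zero_or_pos f.natDegree with hn | hn
  · -- constants
    have h1 := hf 1 le_rfl
    rw [pow_one, eq_C_of_natDegree_eq_zero hn] at h1
    unfold lag at h1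
    rw [sum_C_index (by simp)] at h1
    simp at h1
    apply hne
    rw [eq_C_of_natDegree_eq_zero hn, h1, C_0]
  obtain ⟨n, hnn⟩ : ∃ n, n = f.natDegree := ⟨_, rfl⟩
  rw [← hnn] at hn
  have hlc : f.leadingCoeff ≠ 0 := leadingCoeff_ne_zero.2 hne
  obtain ⟨h, hh⟩ : ∃ h : ℂ[X], h = C (f.leadingCoeff)⁻¹ * f.reverse - 1 := ⟨_, rfl⟩
  have hh1 : C (f.leadingCoeff) * (1 + h) = f.reverse := by
    rw [hh, add_sub_cancel, ← mul_assoc, ← C_mul, mul_inv_cancel₀ hlc, C_1, one_mul]
  have h0 : h.coeff 0 = 0 := by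
    rw [hh, coeff_sub, coeff_C_mul, coeff_zero_reverse, inv_mul_cancel₀ hlc, coeff_one_zero, sub_self]
  -- the constant of the domination
  obtain ⟨D, hD1, hD⟩ : ∃ D : ℝ, 1 ≤ D ∧ ∀ j, ‖(1 + h).coeff j‖ ≤ D ^ j / j ! := by
    refine ⟨1 + ∑ j ∈ (1 + h).support, ‖(1 + h).coeff j‖ * (j ! : ℕ), ?_, ?_⟩
    · have : 0 ≤ ∑ j ∈ (1 + h).support, ‖(1 + h).coeff j‖ * ((j ! : ℕ) : ℝ) := by positivity
      linarith
    · intro j
      set D := 1 + ∑ j ∈ (1 + h).support, ‖(1 + h).coeff j‖ * ((j ! : ℕ) : ℝ) with hDdef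
      have hD1 : 1 ≤ D := by
        have : 0 ≤ ∑ j ∈ (1 + h).support, ‖(1 + h).coeff j‖ * ((j ! : ℕ) : ℝ) := by positivity
        linarith
      rcases Nat.eq_zero_or_pos j with hj | hj
      · rw [hj, coeff_add, h0, coeff_one_zero]
        simp
      · have hj! : (0 : ℝ) < (j ! : ℕ) := by exact_mod_cast Nat.factorial_pos j
        rw [le_div_iff₀ hj!]
        by_cases hs : j ∈ (1 + h).support
        · have h1 : ‖(1 + h).coeff j‖ * ((j ! : ℕ) : ℝ) ≤ ∑ j ∈ (1 + h).support, ‖(1 + h).coeff j‖ * ((j ! : ℕ) : ℝ) :=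
            single_le_sum (f := fun j => ‖(1 + h).coeff j‖ * ((j ! : ℕ) : ℝ)) (fun j _ => by positivity) hs
          calc ‖(1 + h).coeff j‖ * ((j ! : ℕ) : ℝ) ≤ D := by linarith
            _ = D ^ 1 := (pow_one _).symm
            _ ≤ D ^ j := pow_le_pow_right₀ hD1 hj
        · rw [notMem_support_iff.1 hs, norm_zero, zero_mul]
          positivity
  obtain ⟨c, hc⟩ : ∃ c : ℝ, c = min 1 (α + 1) := ⟨_, rfl⟩
  have hc0 : 0 < c := by rw [hc]; exact lt_min one_pos (by linarith)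
  have hc1 : c ≤ 1 := by rw [hc]; exact min_le_left _ _
  have hc2 : c ≤ α + 1 := by rw [hc]; exact min_le_right _ _
  -- Tannery
  have htan : Tendsto (fun m : ℕ => ∑' i : ℕ, (if i ∈ range (n * m + 1) then ((1 + h) ^ m).coeff i / Q α (n * m) i else 0))
      atTop (𝓝 (∑' i : ℕ, (h.coeff 1 / n) ^ i / (i ! : ℕ))) := by
    refine tendsto_tsum_of_dominated_convergence (bound := fun i : ℕ => (D * Real.exp 1 / c) ^ i / i !)
      (Real.summable_pow_div_factorial _) (fun i => ?_) ?_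
    · refine (term_lim α n hn h h0 i).congr' ?_
      filter_upwards [eventually_ge_atTop i] with m hm
      rw [if_pos]
      rw [mem_range]
      nlinarith
    · filter_upwards [eventually_ge_atTop 1] with m hm i
      split_ifs with hi
      · rw [mem_range] at hi
        have h1 := coef_bound (1 + h) D (by linarith) hD m i
        have h2 := Q_bound α c hc0 hc1 hc2 (n * m) i (by omega)
        have hm0 : (0 : ℝ) < m := by exact_mod_cast hm
        have hn0 : (1 : ℝ) ≤ n := by exact_mod_cast hn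
        have hq : 0 < (c * ((n * m : ℕ) : ℝ) / Real.exp 1) ^ i := by
          apply pow_pos
          push_cast
          positivity
        rw [norm_div]
        calc ‖((1 + h) ^ m).coeff i‖ / ‖Q α (n * m) i‖ ≤ ((D * m) ^ i / (i ! : ℕ)) / (c * ((n * m : ℕ) : ℝ) / Real.exp 1) ^ i :=
              div_le_div₀ (by positivity) h1 hq h2
          _ = (D * m / (c * ((n * m : ℕ) : ℝ) / Real.exp 1)) ^ i / (i ! : ℕ) := by rw [div_pow]; ring
          _ ≤ (D * Real.exp 1 / c) ^ i / (i ! : ℕ) := by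
              apply div_le_div_of_nonneg_right _ (by positivity)
              apply pow_le_pow_left₀ (by push_cast; positivity)
              push_cast
              rw [div_le_div_iff₀ (by positivity) hc0, mul_div_assoc']
              rw [le_div_iff₀ (Real.exp_pos 1)]
              have : 0 ≤ D * m * c * Real.exp 1 := by positivity
              nlinarith
      · rw [norm_zero]
        have : 0 ≤ D * Real.exp 1 / c := by positivity
        positivity
  have hexp : ∑' i : ℕ, (h.coeff 1 / n) ^ i / ((i ! : ℕ) : ℂ) = Complex.exp (h.coeff 1 / n) := by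
    rw [Complex.exp_eq_exp_ℂ, NormedSpace.exp_eq_tsum_div]
  rw [hexp] at htan
  have hev : ∀ᶠ m : ℕ in atTop, ∑' i : ℕ, (if i ∈ range (n * m + 1) then ((1 + h) ^ m).coeff i / Q α (n * m) i else 0) ≠ 0 :=
    htan.eventually_ne (Complex.exp_ne_zero _)
  obtain ⟨m, hm1, hm2⟩ := (hev.and (eventually_ge_atTop 1)).exists
  apply hm1
  rw [tsum_eq_sum (s := range (n * m + 1)) (fun i hi => if_neg hi)]
  have h3 := lag_pow α hα f hne h hh1 m
  rw [hf m hm2, ← hnn] at h3
  have h4 : f.leadingCoeff ^ m * P α (n * m) ≠ 0 := mul_ne_zero (pow_ne_zero _ hlc) (P_ne α hα _)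
  have h5 := (mul_eq_zero.1 h3.symm).resolve_left h4
  rw [← h5]
  exact sum_congr rfl fun i hi => if_pos hi

end Run7.h277.IM.LAG
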