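import Pool.Agent.Run7.h163.IM.Iface

/-!
# Project of helper163 (MP_3bbc5b_al), piece ODE
-/

set_option autoImplicit false

namespace Run7.h277.IM.ODE

open Filter Topology Set
open Run7.h163.IM

theorem main : S_ODE := by
  intro s ε M y r₁ h1 h2 hM hy hy1 r hr
  obtain ⟨a, ha⟩ : ∃ a, a = min r r₁ / 2 := ⟨_, rfl⟩
  obtain ⟨b, hb⟩ : ∃ b, b = (max r r₁ + ε) / 2 := ⟨_, rfl⟩
  have hmin : 0 < min r r₁ := lt_min hr.1 h1
  have hmax : max r r₁ < ε := max_lt hr.2 h2
  have ha0 : 0 < a := by rw [ha]; linarith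
  have hab : a < b := by
    rw [ha, hb]
    have : min r r₁ ≤ max r r₁ := min_le_max
    linarith
  have hbε : b < ε := by rw [hb]; linarith
  have hra : a < r := by rw [ha]; have := min_le_left r r₁; linarith
  have hrb : r < b := by rw [hb]; have := le_max_left r r₁; linarith
  have hra1 : a < r₁ := by rw [ha]; have := min_le_right r r₁; linarith
  have hrb1 : r₁ < b := by rw [hb]; have := le_max_right r r₁; linarith
  have hsub : Icc a b ⊆ Ioo 0 ε := fun t ht => ⟨ha0.trans_le ht.1, ht.2.trans_lt hbε⟩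
  -- the bound of the matrices
  obtain ⟨N, hN⟩ : ∃ N : ℝ → ℝ, N = fun t => ∑ i, ∑ j, ‖M t i j‖ := ⟨_, rfl⟩
  have hNc : ContinuousOn N (Icc a b) := by
    rw [hN]
    refine continuousOn_finsetSum _ fun i _ => continuousOn_finsetSum _ fun j _ => ?_
    have h3 : ContinuousOn (fun t => M t i j) (Ioo 0 ε) :=
      (continuous_apply_apply i j).comp_continuousOn hM
    exact (h3.mono hsub).norm
  obtain ⟨K, hK⟩ := isCompact_Icc.bddAbove_image hNc
  have hK' : ∀ t ∈ Icc a b, N t ≤ K := fun t ht => hK (mem_image_of_mem _ ht)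
  have hlip : ∀ t ∈ Ioo a b, LipschitzOnWith (Real.toNNReal K) (fun x : Fin s → ℂ => (M t).mulVec x) univ := by
    intro t ht
    apply LipschitzOnWith.of_dist_le_mul
    intro x _ x' _
    rw [dist_eq_norm, dist_eq_norm, ← Matrix.mulVec_sub]
    have hKt := hK' t (Ioo_subset_Icc_self ht)
    have hN0 : 0 ≤ N t := by rw [hN]; positivity
    rw [Real.coe_toNNReal K (hN0.trans hKt)]
    refine le_trans ?_ (mul_le_mul_of_nonneg_right hKt (norm_nonneg _))
    rw [pi_norm_le_iff_of_nonneg (by positivity)]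
    intro i
    have e : (M t).mulVec (x - x') i = ∑ j, M t i j * (x - x') j := rfl
    rw [e]
    refine (norm_sum_le _ _).trans ?_
    calc ∑ j, ‖M t i j * (x - x') j‖ ≤ ∑ j, ‖M t i j‖ * ‖x - x'‖ := by
          refine Finset.sum_le_sum fun j _ => ?_
          rw [norm_mul]
          exact mul_le_mul_of_nonneg_left (norm_le_pi_norm _ _) (norm_nonneg _)
      _ = (∑ j, ‖M t i j‖) * ‖x - x'‖ := by rw [Finset.sum_mul]
      _ ≤ N t * ‖x - x'‖ := by
          apply mul_le_mul_of_nonneg_right _ (norm_nonneg _)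
          rw [hN]
          exact Finset.single_le_sum (f := fun i => ∑ j, ‖M t i j‖)
            (fun i _ => Finset.sum_nonneg fun j _ => norm_nonneg _) (Finset.mem_univ i)
  have hyc : ContinuousOn y (Icc a b) := fun t ht => (hy t (hsub ht)).continuousAt.continuousWithinAt
  have := ODE_solution_unique_of_mem_Icc (v := fun t x => (M t).mulVec x) (s := fun _ => univ) (f := y)
    (g := fun _ => 0) (t₀ := r₁) hlip ⟨hra1, hrb1⟩ hyc
    (fun t ht => hy t (hsub (Ioo_subset_Icc_self ht))) (fun _ _ => mem_univ _) continuousOn_const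
    (fun t _ => by
      rw [Matrix.mulVec_zero]
      exact hasDerivAt_const t (0 : Fin s → ℂ)) (fun _ _ => mem_univ _) hy1
  exact this ⟨hra.le, hrb.le⟩

end Run7.h277.IM.ODE
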